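import Pool.Agent.Q74.SF.Def

/-! # Project SF (helper74), JOB Lip (helper6): coalescing walkers are Lipschitz in the starting point -/

set_option autoImplicit false
set_option maxHeartbeats 400000

namespace Pool.Agent.Q6.SF

open Finset
open Pool.Agent.Q74.KP
open Pool.Agent.Q74.SF

/-- an order of the coordinates which sorts both `a` and `a + e_i` -/
theorem exists_sort {k : ℕ} (a : Fin k → ℤ) (i : Fin k) : ∃ σ : Equiv.Perm (Fin k),
    Monotone (a ∘ σ) ∧ Monotone ((a + Pi.single i 1 : Fin k → ℤ) ∘ σ) := by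
  set f : Fin k → ℤ := fun j => 2 * a j + (Pi.single i 1 : Fin k → ℤ) j with hf
  refine ⟨Tuple.sort f, ?_, ?_⟩
  · intro u v huv
    have h := Tuple.monotone_sort f huv
    simp only [Function.comp, hf] at h ⊢
    have h1 : (Pi.single i 1 : Fin k → ℤ) (Tuple.sort f v) ≤ 1 := by
      rw [Pi.single_apply]; split_ifs <;> norm_num
    have h2 : 0 ≤ (Pi.single i 1 : Fin k → ℤ) (Tuple.sort f u) := by
      rw [Pi.single_apply]; split_ifs <;> norm_num
    simp only [hf] at h1 h2
    omega
  · intro u v huv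
    have h := Tuple.monotone_sort f huv
    simp only [Function.comp, hf, Pi.add_apply] at h ⊢
    have h1 : (Pi.single i 1 : Fin k → ℤ) (Tuple.sort f v) ≤ 1 := by
      rw [Pi.single_apply]; split_ifs <;> norm_num
    have h2 : 0 ≤ (Pi.single i 1 : Fin k → ℤ) (Tuple.sort f u) := by
      rw [Pi.single_apply]; split_ifs <;> norm_num
    have h3 : (Pi.single i 1 : Fin k → ℤ) (Tuple.sort f u) ≤ 1 := by
      rw [Pi.single_apply]; split_ifs <;> norm_num
    have h4 : 0 ≤ (Pi.single i 1 : Fin k → ℤ) (Tuple.sort f v) := by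
      rw [Pi.single_apply]; split_ifs <;> norm_num
    simp only [hf] at h1 h2 h3 h4
    omega

/-- the free walkers without collisions are Lipschitz -/
theorem NG_lip {k : ℕ} {g : (Fin k → ℤ) → ℝ} (hg : ∀ z, |g z| ≤ 1) (r : ℕ) (b : Fin k → ℤ) (j : Fin k)
    (hb : Monotone b) (hb' : Monotone (b + Pi.single j 1 : Fin k → ℤ)) :
    |NG g r (b + Pi.single j 1) - NG g r b| ≤ 2 * (k.factorial : ℝ) / √((r : ℝ) + 1) := by
  rw [NG_eq g r _ hb', NG_eq g r _ hb, ← act_D, ← act_mul]
  have h := Bd_DP j r (Fa g) ((k.factorial : ℝ) * 1) (fun z => Fa_abs hg z) b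
  refine h.trans (le_of_eq ?_)
  ring

theorem pat_comp {k : ℕ} (π : Fin k → Fin k) (σ : Equiv.Perm (Fin k)) (z : Fin k → ℤ) :
    pat (π ∘ σ) (z ∘ σ) = pat π z := by
  unfold pat
  have h : (∀ i j, (z ∘ σ) i = (z ∘ σ) j ↔ (π ∘ σ) i = (π ∘ σ) j) ↔ (∀ i j, z i = z j ↔ π i = π j) := by
    constructor
    · intro h i j
      have := h (σ.symm i) (σ.symm j)
      simpa [Function.comp] using this
    · intro h i j
      exact h (σ i) (σ j)
  by_cases h1 : ∀ i j, z i = z j ↔ π i = π j
  · rw [if_pos h1, if_pos (h.2 h1)]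
  · rw [if_neg h1, if_neg (fun h2 => h1 (h.1 h2))]

/-- JOB Lip -/
theorem lip (h1 : S_Expand) (h2 : S_Comp) (h3 : S_CInj) (h4 : S_CMono) : S_Lip := by
  classical
  intro k
  obtain ⟨N, C₀, hC₀, hE⟩ := h1 k
  refine ⟨N * (2 * (k.factorial : ℝ)) + 1, by positivity, ?_⟩
  intro π G hG r a i
  obtain ⟨σ, hσ1, hσ2⟩ := exists_sort a i
  set G' : (Fin k → ℤ) → ℝ := fun y => G (y ∘ σ.symm) with hG'
  obtain ⟨m, e, g, he, hg, -, hid⟩ := hE (π ∘ σ) G' (fun z => hG _)
  -- the reduction to increasing starting points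
  have key : ∀ b : Fin k → ℤ, Monotone (b ∘ σ) →
      CG (fun z => pat π z * G z) r b = ∑ x : Fin N, NG (g x) r ((b ∘ σ) ∘ e x) := by
    intro b hb
    have s1 : (fun z : Fin k → ℤ => pat π z * G z) =
        fun z => (fun y => pat (π ∘ σ) y * G' y) (z ∘ σ) := by
      funext z
      simp only [hG']
      rw [pat_comp]
      congr 2
      funext j
      simp [Function.comp]
    rw [s1, h2 k k σ (fun y => pat (π ∘ σ) y * G' y) r b]
    have s2 : CG (fun y => pat (π ∘ σ) y * G' y) r (b ∘ σ) =
        CG (fun y => ∑ x : Fin N, (fun w : Fin (m x) → ℤ => if Function.Injective w then g x w else 0)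
          (y ∘ e x)) r (b ∘ σ) := by
      apply h4 k _ _ _ r (b ∘ σ) hb
      intro z hz
      have hgood : Good z z := by
        intro i' j' l h5 h6 h7
        have h8 : z l = z i' := le_antisymm ((hz h6).trans h7.ge) (hz h5)
        exact ⟨h8, h8⟩
      rw [hid ℤ z z hgood]
      apply sum_congr rfl
      intro x _
      by_cases h5 : Function.Injective (z ∘ e x)
      · simp only [if_pos h5]
      · simp only [if_neg h5]
    rw [s2, CG_sum]
    apply sum_congr rfl
    intro x _
    have s3 := h2 k (m x) (e x) (fun w : Fin (m x) → ℤ => if Function.Injective w then g x w else 0) r (b ∘ σ)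
    rw [s3]
    have s4 := h3 (m x) (g x) r ((b ∘ σ) ∘ e x)
    rw [← s4]
  rw [key _ hσ2, key _ hσ1, ← sum_sub_distrib]
  have hs : (0 : ℝ) < √((r : ℝ) + 1) := Real.sqrt_pos.2 (by positivity)
  have hterm : ∀ x : Fin N, |NG (g x) r (((a + Pi.single i 1 : Fin k → ℤ) ∘ σ) ∘ e x) -
      NG (g x) r ((a ∘ σ) ∘ e x)| ≤ 2 * (k.factorial : ℝ) / √((r : ℝ) + 1) := by
    intro x
    have hmk : m x ≤ k := by
      have := Fintype.card_le_of_injective (e x) (he x).injective
      simpa using this
    have hfac : ((m x).factorial : ℝ) ≤ (k.factorial : ℝ) := by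
      exact_mod_cast Nat.factorial_le hmk
    by_cases h5 : ∃ j, e x j = σ.symm i
    · obtain ⟨j, hj⟩ := h5
      have hb' : ((a + Pi.single i 1 : Fin k → ℤ) ∘ σ) ∘ e x = (a ∘ σ) ∘ e x + Pi.single j 1 := by
        funext l
        simp only [Function.comp, Pi.add_apply]
        congr 1
        rw [Pi.single_apply, Pi.single_apply]
        have : σ (e x l) = i ↔ l = j := by
          constructor
          · intro h
            apply (he x).injective
            rw [hj, ← h, Equiv.symm_apply_apply]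
          · intro h
            rw [h, hj, Equiv.apply_symm_apply]
        by_cases h6 : l = j
        · rw [if_pos h6, if_pos (this.2 h6)]
        · rw [if_neg h6, if_neg (fun h => h6 (this.1 h))]
      have hm1 : Monotone ((a ∘ σ) ∘ e x) := hσ1.comp (he x).monotone
      have hm2 : Monotone ((a ∘ σ) ∘ e x + Pi.single j 1 : Fin (m x) → ℤ) := by
        rw [← hb']
        exact hσ2.comp (he x).monotone
      rw [hb']
      refine (NG_lip (hg x) r _ j hm1 hm2).trans ?_
      apply div_le_div_of_nonneg_right _ hs.le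
      linarith
    · have hb' : ((a + Pi.single i 1 : Fin k → ℤ) ∘ σ) ∘ e x = (a ∘ σ) ∘ e x := by
        funext l
        simp only [Function.comp, Pi.add_apply]
        have : σ (e x l) ≠ i := by
          intro h
          apply h5
          exact ⟨l, by rw [← h, Equiv.symm_apply_apply]⟩
        rw [Pi.single_apply, if_neg this, add_zero]
      rw [hb', sub_self, abs_zero]
      positivity
  refine (abs_sum_le_sum_abs _ _).trans ((sum_le_sum fun x _ => hterm x).trans ?_)
  rw [sum_const, card_univ, Fintype.card_fin, nsmul_eq_mul, mul_div_assoc']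
  apply div_le_div_of_nonneg_right _ hs.le
  linarith

end Pool.Agent.Q6.SF
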